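import Mathlib
import Pool.Agent.LibGrT.Defs

/-! # The random model tilted by the fourth power of the absolute value of an Euler product: definitions -/

set_option autoImplicit false

namespace Pool.Agent.LibGrF

open MeasureTheory Filter Topology Pool.Agent.LibMM99 Pool.Agent.LibGrT
open scoped ComplexConjugate

/-- the reciprocal of the mean of `‖ZZ‖ ^ 4` -/
noncomputable def nz4 (s : ℂ) (u v : ℝ) : ℝ := ∏ p ∈ prm u v, (LibZM.Gsum 2 (‖zp s p‖ ^ 2))⁻¹

/-- the measure with density proportional to the fourth power of the absolute value of the Euler product over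
the primes up to `e ^ L` at `1/2 + s` -/
noncomputable def nu4 (s : ℂ) (L : ℝ) : Measure Om :=
  mu.withDensity fun x => ENNReal.ofReal (nz4 s 1 (Real.exp L) * ‖ZZ s 1 (Real.exp L) x‖ ^ 4)

/-- the family of the admissible tilted measures at level `L` -/
def NN4 (L : ℝ) : Set (Measure Om) := {ν | ∃ s : ℂ, Adm s L ∧ ν = nu4 s L}

/-- the polynomial approximation at one scale with its mean values under all tilted measures -/
structure ScaleT4 (β C u v κ : ℝ) (b e : Om → ℝ) : Prop where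
  b_nonneg : ∀ x, 0 ≤ b x
  e_nonneg : ∀ x, 0 ≤ e x
  b_dep : DependsOn b (coo u v)
  e_dep : DependsOn e (coo u v)
  b_poly : IsPolyR (C * κ * Real.log v) b
  e_poly : IsPolyR (C * κ * Real.log v) e
  approx : ∀ x, |‖DS (smo u v (Real.exp (κ * Real.log v))) (fun _ => 1) x‖ ^ β - b x| ≤ e x
  b_le : ∀ (s : ℂ) (L : ℝ), Adm s L → v ≤ Real.exp L →
    ∫ x, b x ∂(nu4 s L) ≤ PS (β + 4) u v * nz4 0 u v * Real.exp (C * |s.re| * Real.log v)
  e_le : ∀ (s : ℂ) (L : ℝ), Adm s L → v ≤ Real.exp L → ∫ x, e x ∂(nu4 s L) ≤ C * Real.exp (-κ / 20)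
  le_b : ∀ L : ℝ, 1 ≤ L → v ≤ Real.exp L →
    PS (β + 4) u v * nz4 0 u v * (1 - C * Real.exp (-κ / 20)) ≤ ∫ x, b x ∂(nu4 0 L)

/-- the growth exponent `k^2/4 - 4`, `k = β + 4` -/
noncomputable def gam4 (β : ℝ) : ℝ := β ^ 2 / 4 + 2 * β

/-- The Gaussian limit of the top part: `E ‖Qw (2 v_j + √v_j z_j)‖ ^ β` for standard complex Gaussians -/
noncomputable def gaussT4 (β : ℝ) (w : ℝ → ℂ) (δ : ℝ) (M : ℕ) : ℝ :=
  ∫ z, ‖MvPolynomial.eval (fun j => ((2 * vw δ M j : ℝ) : ℂ) + ((Real.sqrt (vw δ M j) : ℝ) : ℂ) * z j)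
    (Qw w δ M)‖ ^ β ∂gCM M

end Pool.Agent.LibGrF
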