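import Mathlib
import Pool.Agent.LibGrF.B01

set_option autoImplicit false

namespace Pool.Agent.LibGrF

open MeasureTheory Filter Topology Pool.Agent.LibMM99 Pool.Agent.LibGrT
open scoped ComplexConjugate

theorem mean_ZZ_sq {s : ℂ} {L : ℝ} (h : Adm s L) {u v : ℝ} (hv : v ≤ Real.exp L) :
    nz4 s u v * ∫ x, ‖ZZ s u v x‖ ^ 4 ∂mu = 1 := by
  have h1 := moment_ZZ_eq 2 h (u := u) hv
  norm_num at h1
  rw [h1]
  unfold nz4
  rw [← Finset.prod_mul_distrib]
  refine Finset.prod_eq_one fun p hp => ?_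
  have h3 := Gsum_two_pos (sq_nonneg ‖zp s p‖) (sq_lt_one h hv hp)
  exact inv_mul_cancel₀ (by linarith)

end Pool.Agent.LibGrF
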