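import Mathlib
import Pool.Agent.LibGrF.A1m

set_option autoImplicit false

namespace Pool.Agent.LibGrF

open MeasureTheory Filter Topology Pool.Agent.LibMM99 Pool.Agent.LibGrT
open scoped ComplexConjugate

theorem A1g_prod {l0 : ℝ} (h0 : 0 ≤ l0) (k : ℝ) (s : ℂ) (j : ℕ) :
    ∏ i ∈ Finset.range j, (PS k (tj l0 i) (tj l0 (i + 1)) * nz4 s (tj l0 i) (tj l0 (i + 1))) =
      PS k (tj l0 0) (tj l0 j) * nz4 s (tj l0 0) (tj l0 j) := by
  induction j with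
  | zero =>
    have : prm (tj l0 0) (tj l0 0) = ∅ := by
      rw [prm, Finset.filter_eq_empty_iff]
      rintro p hp ⟨h1, h2⟩
      rw [Finset.mem_Icc] at hp
      have h3 : (p : ℝ) ≤ tj l0 0 := (Nat.cast_le.mpr hp.2).trans (Nat.floor_le (Real.exp_pos _).le)
      linarith
    simp [PS, nz4, this]
  | succ j ih =>
    rw [Finset.prod_range_succ, ih, ← PS_mul k (tj_mono h0 (Nat.zero_le _)) (tj_mono h0 (Nat.le_succ _)),
      ← A1m_nz_mul s (tj_mono h0 (Nat.zero_le _)) (tj_mono h0 (Nat.le_succ _))]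
    ring

theorem A1g_sum (l0 : ℝ) (j : ℕ) : ∑ i ∈ Finset.range j, l0 * (2 : ℝ) ^ (i + 1) = 2 * (l0 * 2 ^ j) - 2 * l0 := by
  induction j with
  | zero => simp
  | succ j ih =>
    rw [Finset.sum_range_succ, ih, pow_succ]
    ring

/-- A1' : the growth factors of the tilted family (bound for `nz4` given) -/
theorem A1g_core {β : ℝ} (hβ : 0 < β) (C0 : ℝ) (hC0 : 1 ≤ C0) {Cz : ℝ} (hCz : 1 ≤ Cz)
    (hz : ∀ (s : ℂ) (L u v : ℝ), Adm s L → Real.sqrt 2 ≤ u → u ≤ v → v ≤ Real.exp L →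
      nz4 s u v ≤ Cz * (Real.log u / Real.log v) ^ 4) :
    ∃ Cg : ℝ, 1 ≤ Cg ∧ ∀ (l0 K L : ℝ) (J : ℕ),
    Real.log 2 / 2 ≤ l0 → l0 ≤ Real.log 2 → 1 ≤ L → l0 * 2 ^ J ≤ L → ∀ (b e : ℕ → Om → ℝ),
    (∀ i < J, ScaleT4 β C0 (tj l0 i) (tj l0 (i + 1)) (kap K J i) (b i) (e i)) →
    ∃ G : ℕ → ℝ, (∀ i < J, 0 ≤ G i) ∧ (∀ j ≤ J, ∏ i ∈ Finset.range j, G i ≤ Cg * (l0 * 2 ^ j) ^ gam4 β) ∧
      ∀ i < J, ScaleDataN (NN4 L) β C0 (tj l0 i) (tj l0 (i + 1)) (kap K J i) (G i) (b i) (e i) := by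
  have hβ2 : 0 < β + 4 := by linarith
  obtain ⟨CP, hCP, hP⟩ := PS_le hβ2
  refine ⟨max 1 (CP * Cz * Real.exp (C0 / 10)), le_max_left _ _, ?_⟩
  intro l0 K L J hl hl' hL hJL b e hS
  have hlog2 : 0 < Real.log 2 := Real.log_pos (by norm_num)
  have hlog2' : Real.log 2 ≤ 1 := by
    have := Real.log_two_lt_d9
    linarith
  have hl00 : 0 < l0 := lt_of_lt_of_le (by positivity) hl
  have hl0 : 0 ≤ l0 := hl00.le
  have hL0 : 0 < L := by linarith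
  have hjL : ∀ j ≤ J, l0 * 2 ^ j ≤ L := by
    intro j hj
    refine le_trans ?_ hJL
    exact mul_le_mul_of_nonneg_left (pow_le_pow_right₀ (by norm_num) hj) hl0
  refine ⟨fun i => PS (β + 4) (tj l0 i) (tj l0 (i + 1)) * nz4 0 (tj l0 i) (tj l0 (i + 1)) *
    Real.exp (C0 / (20 * L) * (l0 * 2 ^ (i + 1))), ?_, ?_, ?_⟩
  · intro i _
    have h1 : 1 ≤ PS (β + 4) (tj l0 i) (tj l0 (i + 1)) := one_le_PS hβ2.le _ _
    have h2 := A1m_nz_pos (tj l0 i) (tj l0 (i + 1))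
    positivity
  · intro j hj
    rw [Finset.prod_mul_distrib, A1g_prod hl0, ← Real.exp_sum, ← Finset.mul_sum, A1g_sum]
    have h1 : Real.exp (C0 / (20 * L) * (2 * (l0 * 2 ^ j) - 2 * l0)) ≤ Real.exp (C0 / 10) := by
      apply Real.exp_le_exp.2
      have h2 : 2 * (l0 * 2 ^ j) - 2 * l0 ≤ 2 * L := by linarith [hjL j hj]
      calc C0 / (20 * L) * (2 * (l0 * 2 ^ j) - 2 * l0) ≤ C0 / (20 * L) * (2 * L) :=
            mul_le_mul_of_nonneg_left h2 (by positivity)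
        _ = C0 / 10 := by field_simp; ring
    have h2 : PS (β + 4) (tj l0 0) (tj l0 j) ≤ CP * (l0 * 2 ^ j) ^ ((β + 4) ^ 2 / 4) := by
      have h4 : PS (β + 4) (tj l0 0) (tj l0 j) ≤ PS (β + 4) 1 (tj l0 j) := by
        have h1t : (1 : ℝ) ≤ tj l0 0 := Real.one_le_exp (by positivity)
        rw [← PS_mul (β + 4) h1t (tj_mono hl0 (Nat.zero_le j))]
        exact le_mul_of_one_le_left (zero_le_one.trans (one_le_PS hβ2.le _ _)) (one_le_PS hβ2.le _ _)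
      refine h4.trans ?_
      have := hP (tj l0 j) (sqrt_two_le_tj hl j)
      rwa [log_tj] at this
    have hy : 0 < l0 * 2 ^ j := by positivity
    have h3 : nz4 0 (tj l0 0) (tj l0 j) ≤ Cz * ((l0 * 2 ^ j)⁻¹) ^ 4 := by
      have h4 := hz 0 L (tj l0 0) (tj l0 j) (A1m_adm hL) (sqrt_two_le_tj hl 0) (tj_mono hl0 (Nat.zero_le j))
        (by unfold tj; exact Real.exp_le_exp.2 (hjL j hj))
      rw [log_tj, log_tj, pow_zero, mul_one] at h4
      refine h4.trans (mul_le_mul_of_nonneg_left (pow_le_pow_left₀ (by positivity) ?_ 4) (by linarith))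
      rw [div_eq_mul_inv]
      exact mul_le_of_le_one_left (by positivity) (hl'.trans hlog2')
    have h5 : (l0 * 2 ^ j) ^ ((β + 4) ^ 2 / 4) * ((l0 * 2 ^ j)⁻¹) ^ 4 = (l0 * 2 ^ j) ^ gam4 β := by
      rw [← Real.rpow_neg_one, ← Real.rpow_natCast (_ ^ (-1 : ℝ)) 4, ← Real.rpow_mul hy.le, ← Real.rpow_add hy]
      congr 1
      unfold gam4
      push_cast
      ring
    have hp0 : 0 ≤ PS (β + 4) (tj l0 0) (tj l0 j) := zero_le_one.trans (one_le_PS hβ2.le _ _)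
    have hz0 := (A1m_nz_pos (tj l0 0) (tj l0 j)).le
    have hpow : 0 ≤ (l0 * 2 ^ j) ^ gam4 β := Real.rpow_nonneg hy.le _
    calc PS (β + 4) (tj l0 0) (tj l0 j) * nz4 0 (tj l0 0) (tj l0 j) *
          Real.exp (C0 / (20 * L) * (2 * (l0 * 2 ^ j) - 2 * l0))
        ≤ (CP * (l0 * 2 ^ j) ^ ((β + 4) ^ 2 / 4)) * (Cz * ((l0 * 2 ^ j)⁻¹) ^ 4) * Real.exp (C0 / 10) := by
          refine mul_le_mul (mul_le_mul h2 h3 hz0 (by positivity)) h1 (Real.exp_pos _).le (by positivity)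
      _ = (CP * Cz * Real.exp (C0 / 10)) * ((l0 * 2 ^ j) ^ ((β + 4) ^ 2 / 4) * ((l0 * 2 ^ j)⁻¹) ^ 4) := by ring
      _ = (CP * Cz * Real.exp (C0 / 10)) * (l0 * 2 ^ j) ^ gam4 β := by rw [h5]
      _ ≤ _ := mul_le_mul_of_nonneg_right (le_max_right _ _) hpow
  · intro i hi
    have h := hS i hi
    have hv : tj l0 (i + 1) ≤ Real.exp L := by
      unfold tj
      exact Real.exp_le_exp.2 (hjL (i + 1) hi)
    refine ⟨h.b_nonneg, h.e_nonneg, h.b_dep, h.e_dep, h.b_poly, h.e_poly, h.approx, ?_, ?_⟩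
    · rintro ν ⟨s, hs, rfl⟩
      refine (h.b_le s L hs hv).trans ?_
      have h1 : 1 ≤ PS (β + 4) (tj l0 i) (tj l0 (i + 1)) := one_le_PS hβ2.le _ _
      have h2 := A1m_nz_pos (tj l0 i) (tj l0 (i + 1))
      refine mul_le_mul_of_nonneg_left (Real.exp_le_exp.2 ?_) (by positivity)
      rw [log_tj]
      have h3 : 0 ≤ l0 * 2 ^ (i + 1) := by positivity
      calc C0 * |s.re| * (l0 * 2 ^ (i + 1)) ≤ C0 * (1 / (20 * L)) * (l0 * 2 ^ (i + 1)) :=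
            mul_le_mul_of_nonneg_right (mul_le_mul_of_nonneg_left hs.2 (by linarith)) h3
        _ = C0 / (20 * L) * (l0 * 2 ^ (i + 1)) := by ring
    · rintro ν ⟨s, hs, rfl⟩
      exact h.e_le s L hs hv

end Pool.Agent.LibGrF
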