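import Mathlib
import Pool.Agent.LibGrF.B04
import Pool.Agent.LibGrF.B05
import Pool.Agent.LibGrT.B07

set_option autoImplicit false

namespace Pool.Agent.LibGrF

open MeasureTheory Filter Topology Pool.Agent.LibMM99 Pool.Agent.LibGrT
open scoped ComplexConjugate

theorem B07_holder4 (r : ℕ) (hr : 1 ≤ r) {A B : Om → ℝ} (hA : Continuous A) (hB : Continuous B)
    (A0 : ∀ x, 0 ≤ A x) (B0 : ∀ x, 0 ≤ B x) :
    ∫ x, A x ^ 2 * B x ^ r ∂mu ≤ (∫ x, A x ^ (r + 2) ∂mu) ^ (2 / ((r : ℝ) + 2)) *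
      (∫ x, B x ^ (r + 2) ∂mu) ^ ((r : ℝ) / ((r : ℝ) + 2)) := by
  have hr0 : (0 : ℝ) < r := by exact_mod_cast hr
  have hpq : (((r : ℝ) + 2) / 2).HolderConjugate (((r : ℝ) + 2) / r) := by
    rw [Real.holderConjugate_iff]
    refine ⟨by linarith, ?_⟩
    field_simp
    ring
  have key := integral_mul_le_Lp_mul_Lq_of_nonneg (μ := mu) hpq
    (f := fun x => A x ^ 2) (g := fun x => B x ^ r) (Filter.Eventually.of_forall fun x => pow_nonneg (A0 x) 2)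
    (Filter.Eventually.of_forall fun x => pow_nonneg (B0 x) r)
    (B07_memLp (hA.pow 2) _) (B07_memLp (hB.pow r) _)
  refine key.trans (le_of_eq ?_)
  have e1 : ∀ x, (A x ^ 2) ^ (((r : ℝ) + 2) / 2) = A x ^ (r + 2) := fun x => by
    rw [← Real.rpow_natCast, ← Real.rpow_mul (A0 x), ← Real.rpow_natCast]
    congr 1
    push_cast
    field_simp
  have e2 : ∀ x, (B x ^ r) ^ (((r : ℝ) + 2) / r) = B x ^ (r + 2) := fun x => by
    rw [← Real.rpow_natCast, ← Real.rpow_mul (B0 x), mul_div_cancel₀ _ hr0.ne', ← Real.rpow_natCast]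
    push_cast; rfl
  simp only [e1, e2]
  congr 2
  · field_simp
  · field_simp

theorem B07_key (r : ℕ) (hr : 1 ≤ r) : ∃ C : ℝ, 1 ≤ C ∧ ∀ (s : ℂ) (L u v : ℝ), Adm s L → Real.sqrt 2 ≤ u →
    u ≤ v → v ≤ Real.exp L → ∀ (B : Om → ℝ), Continuous B → (∀ x, 0 ≤ B x) → DependsOn B (coo u v) →
    ∀ M : ℝ, 0 ≤ M → ∫ x, B x ^ (r + 2) ∂mu ≤ M ^ (r + 2) →
    ∫ x, B x ^ r ∂(nu4 s L) ≤ C * (Real.log v / Real.log u) ^ (2 * r) * M ^ r := by
  obtain ⟨C1, hC1, H1⟩ := nz_le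
  obtain ⟨C2, hC2, H2⟩ := moment_ZZ (r + 2)
  refine ⟨C1 * C2, by nlinarith, ?_⟩
  intro s L u v hs hu huv hv B hB B0 hd M hM hint
  have hu1 : 1 < u := lt_of_lt_of_le (by
    rw [Real.lt_sqrt (by norm_num)]; norm_num) hu
  have lu : 0 < Real.log u := Real.log_pos hu1
  have lv : 0 < Real.log v := Real.log_pos (lt_of_lt_of_le hu1 huv)
  have hr0 : (0 : ℝ) < r := by exact_mod_cast hr
  set y : ℝ := Real.log v / Real.log u with hy
  have y0 : 0 < y := div_pos lv lu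
  have hyinv : Real.log u / Real.log v = y⁻¹ := by rw [hy, inv_div]
  have cZ : Continuous fun x => ‖ZZ s u v x‖ ^ 2 := (continuous_ZZ hs hv).norm.pow 2
  have hd' : DependsOn (fun x => B x ^ r) (coo u v) := fun x z hxz => by
    have := hd hxz
    simp only [this]
  have hloc := integral_nu_loc hs hu1.le huv hv (f := fun x => B x ^ r) (hB.pow r) hd'
  rw [hloc]
  have h1 := B07_holder4 r hr cZ hB (fun x => by positivity) B0
  have e3 : ∀ x, (‖ZZ s u v x‖ ^ 2) ^ (r + 2) = ‖ZZ s u v x‖ ^ (2 * (r + 2)) := fun x => by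
    rw [← pow_mul]
  have e4 : ∀ x, (‖ZZ s u v x‖ ^ 2) ^ 2 = ‖ZZ s u v x‖ ^ 4 := fun x => by
    rw [← pow_mul]
  simp only [e3, e4] at h1
  have hm := H2 s L u v hs hu huv hv
  have hn := H1 s L u v hs hu huv hv
  rw [hyinv] at hn
  have i1 : 0 ≤ ∫ x, ‖ZZ s u v x‖ ^ (2 * (r + 2)) ∂mu := integral_nonneg fun x => by positivity
  have i2 : 0 ≤ ∫ x, B x ^ (r + 2) ∂mu := integral_nonneg fun x => pow_nonneg (B0 x) _
  have b1 : (∫ x, ‖ZZ s u v x‖ ^ (2 * (r + 2)) ∂mu) ^ (2 / ((r : ℝ) + 2)) ≤ C2 * y ^ (2 * (r + 2)) := by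
    calc (∫ x, ‖ZZ s u v x‖ ^ (2 * (r + 2)) ∂mu) ^ (2 / ((r : ℝ) + 2))
        ≤ (C2 * y ^ ((r + 2) ^ 2)) ^ (2 / ((r : ℝ) + 2)) :=
          Real.rpow_le_rpow i1 hm (by positivity)
      _ = C2 ^ (2 / ((r : ℝ) + 2)) * (y ^ ((r + 2) ^ 2)) ^ (2 / ((r : ℝ) + 2)) :=
          Real.mul_rpow (by linarith) (by positivity)
      _ = C2 ^ (2 / ((r : ℝ) + 2)) * y ^ (2 * (r + 2)) := by
          congr 1
          rw [← Real.rpow_natCast, ← Real.rpow_mul y0.le, ← Real.rpow_natCast]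
          congr 1
          push_cast
          field_simp
      _ ≤ C2 * y ^ (2 * (r + 2)) := by
          refine mul_le_mul_of_nonneg_right ?_ (by positivity)
          calc C2 ^ (2 / ((r : ℝ) + 2)) ≤ C2 ^ (1 : ℝ) :=
                Real.rpow_le_rpow_of_exponent_le hC2 (by
                  rw [div_le_one (by positivity)]; linarith)
            _ = C2 := Real.rpow_one _
  have b2 : (∫ x, B x ^ (r + 2) ∂mu) ^ ((r : ℝ) / ((r : ℝ) + 2)) ≤ M ^ r := by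
    calc (∫ x, B x ^ (r + 2) ∂mu) ^ ((r : ℝ) / ((r : ℝ) + 2))
        ≤ (M ^ (r + 2)) ^ ((r : ℝ) / ((r : ℝ) + 2)) := Real.rpow_le_rpow i2 hint (by positivity)
      _ = M ^ r := by
          rw [← Real.rpow_natCast, ← Real.rpow_mul hM, ← Real.rpow_natCast M r]
          congr 1
          push_cast
          field_simp
  have b3 : ∫ x, ‖ZZ s u v x‖ ^ 4 * B x ^ r ∂mu ≤ (C2 * y ^ (2 * (r + 2))) * M ^ r :=
    h1.trans (mul_le_mul b1 b2 (by positivity) (by positivity))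
  calc nz4 s u v * ∫ x, ‖ZZ s u v x‖ ^ 4 * B x ^ r ∂mu
      ≤ nz4 s u v * ((C2 * y ^ (2 * (r + 2))) * M ^ r) :=
        mul_le_mul_of_nonneg_left b3 (nz_pos hs hv).le
    _ ≤ (C1 * (y⁻¹) ^ 4) * ((C2 * y ^ (2 * (r + 2))) * M ^ r) :=
        mul_le_mul_of_nonneg_right hn (by positivity)
    _ = C1 * C2 * y ^ (2 * r) * M ^ r := by
        have e5 : y ^ (2 * (r + 2)) = y ^ (2 * r) * y ^ 4 := by rw [← pow_add]; congr 1
        rw [e5, inv_pow]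
        field_simp

theorem cs_nu : ∃ C : ℝ, 1 ≤ C ∧ ∀ (s : ℂ) (L u v : ℝ), Adm s L → Real.sqrt 2 ≤ u → u ≤ v →
    v ≤ Real.exp L → ∀ (f : Om → ℝ), Continuous f → (∀ x, 0 ≤ f x) → DependsOn f (coo u v) → ∀ M : ℝ, 0 ≤ M →
    ∫ x, f x ^ 2 ∂mu ≤ M ^ 2 → ∫ x, f x ∂(nu4 s L) ≤ C * (Real.log v / Real.log u) ^ 4 * M := by
  obtain ⟨C1, hC1, H1⟩ := nz_le
  obtain ⟨C2, hC2, H2⟩ := moment_ZZ 4
  refine ⟨C1 * C2, by nlinarith, ?_⟩
  intro s L u v hs hu huv hv B hB B0 hd M hM hint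
  have hu1 : 1 < u := lt_of_lt_of_le (by
    rw [Real.lt_sqrt (by norm_num)]; norm_num) hu
  have lu : 0 < Real.log u := Real.log_pos hu1
  have lv : 0 < Real.log v := Real.log_pos (lt_of_lt_of_le hu1 huv)
  set y : ℝ := Real.log v / Real.log u with hy
  have y0 : 0 < y := div_pos lv lu
  have hyinv : Real.log u / Real.log v = y⁻¹ := by rw [hy, inv_div]
  have cZ : Continuous fun x => ‖ZZ s u v x‖ ^ 4 := (continuous_ZZ hs hv).norm.pow 4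
  have hloc := integral_nu_loc hs hu1.le huv hv (f := B) hB hd
  rw [hloc]
  have h1 := B07_holder 1 le_rfl cZ hB (fun x => by positivity) B0
  have e3 : ∀ x, (‖ZZ s u v x‖ ^ 4) ^ (1 + 1) = ‖ZZ s u v x‖ ^ (2 * 4) := fun x => by
    rw [← pow_mul]
  simp only [e3, pow_one, Nat.cast_one] at h1
  have hm := H2 s L u v hs hu huv hv
  have hn := H1 s L u v hs hu huv hv
  rw [hyinv] at hn
  have i1 : 0 ≤ ∫ x, ‖ZZ s u v x‖ ^ (2 * 4) ∂mu := integral_nonneg fun x => by positivity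
  have i2 : 0 ≤ ∫ x, B x ^ (1 + 1) ∂mu := integral_nonneg fun x => pow_nonneg (B0 x) _
  have b1 : (∫ x, ‖ZZ s u v x‖ ^ (2 * 4) ∂mu) ^ (1 / ((1 : ℝ) + 1)) ≤ C2 * y ^ 8 := by
    have h5 : C2 * y ^ (4 ^ 2) ≤ (C2 * y ^ 8) ^ 2 := by
      have : C2 ≤ C2 ^ 2 := by nlinarith
      calc C2 * y ^ (4 ^ 2) ≤ C2 ^ 2 * y ^ (4 ^ 2) := mul_le_mul_of_nonneg_right this (by positivity)
        _ = _ := by ring
    have h6 : (1 : ℝ) / (1 + 1) = 1 / 2 := by norm_num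
    rw [h6, ← Real.sqrt_eq_rpow]
    exact Real.sqrt_le_iff.mpr ⟨by positivity, hm.trans h5⟩
  have b2 : (∫ x, B x ^ (1 + 1) ∂mu) ^ ((1 : ℝ) / ((1 : ℝ) + 1)) ≤ M := by
    have h6 : (1 : ℝ) / (1 + 1) = 1 / 2 := by norm_num
    rw [h6, ← Real.sqrt_eq_rpow]
    exact Real.sqrt_le_iff.mpr ⟨hM, hint⟩
  have b3 : ∫ x, ‖ZZ s u v x‖ ^ 4 * B x ∂mu ≤ (C2 * y ^ 8) * M :=
    h1.trans (mul_le_mul b1 b2 (by positivity) (by positivity))
  calc nz4 s u v * ∫ x, ‖ZZ s u v x‖ ^ 4 * B x ∂mu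
      ≤ nz4 s u v * ((C2 * y ^ 8) * M) :=
        mul_le_mul_of_nonneg_left b3 (nz_pos hs hv).le
    _ ≤ (C1 * (y⁻¹) ^ 4) * ((C2 * y ^ 8) * M) :=
        mul_le_mul_of_nonneg_right hn (by positivity)
    _ = C1 * C2 * y ^ 4 * M := by
        field_simp

theorem holder_nu (r : ℕ) (hr : 1 ≤ r) : ∃ C : ℝ, 1 ≤ C ∧ ∀ (s : ℂ) (L u v : ℝ), Adm s L → Real.sqrt 2 ≤ u → u ≤ v →
    v ≤ Real.exp L → ∀ (g : Om → ℂ), Continuous g → DependsOn g (coo u v) → ∀ M : ℝ, 0 ≤ M →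
    ∫ x, ‖g x‖ ^ (2 * (r + 2)) ∂mu ≤ M ^ (r + 2) →
    ∫ x, ‖g x‖ ^ (2 * r) ∂(nu4 s L) ≤ C * (Real.log v / Real.log u) ^ (2 * r) * M ^ r := by
  obtain ⟨C, hC, H⟩ := B07_key r hr
  refine ⟨C, hC, ?_⟩
  intro s L u v hs hu huv hv g hg hd M hM hint
  have := H s L u v hs hu huv hv (fun x => ‖g x‖ ^ 2) (hg.norm.pow 2) (fun x => by positivity)
    (fun x z hxz => by
      have := hd hxz
      simp only [this]) M hM (by
      simp only [← pow_mul]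
      exact hint)
  simpa only [← pow_mul] using this

end Pool.Agent.LibGrF
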