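import Mathlib
import Pool.Agent.LibGrF.B01
import Pool.Agent.LibGrT.B12
import Pool.Agent.LibGrT.B13

set_option autoImplicit false

namespace Pool.Agent.LibGrF

open MeasureTheory Filter Topology Pool.Agent.LibMM99 Pool.Agent.LibGrT
open scoped ComplexConjugate

theorem B12_term {f : ℕ → ℂ} (f0 : f 0 = 0) : LSeries.term f 0 = f := by
  funext n
  rcases eq_or_ne n 0 with rfl | hn
  · rw [LSeries.term_zero, f0]
  · rw [LSeries.term_of_ne_zero hn, Complex.cpow_zero, div_one]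

theorem conv_aux {f g : ℕ → ℂ} (f0 : f 0 = 0) (g0 : g 0 = 0) (hf : Summable fun n => ‖f n‖)
    (hg : Summable fun n => ‖g n‖) :
    (Summable fun n : ℕ => ‖∑ q ∈ n.divisorsAntidiagonal, f q.1 * g q.2‖) ∧
    ∑' n : ℕ, (∑ q ∈ n.divisorsAntidiagonal, f q.1 * g q.2) = (∑' n, f n) * ∑' n, g n := by
  have e : LSeries.convolution f g = fun n : ℕ => ∑ q ∈ n.divisorsAntidiagonal, f q.1 * g q.2 :=
    LSeries.convolution_def f g
  have hf' : LSeriesSummable f 0 := by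
    unfold LSeriesSummable
    rw [B12_term f0]
    exact hf.of_norm
  have hg' : LSeriesSummable g 0 := by
    unfold LSeriesSummable
    rw [B12_term g0]
    exact hg.of_norm
  have c0 : LSeries.convolution f g 0 = 0 := LSeries.convolution_map_zero f g
  constructor
  · have h := LSeriesSummable.convolution hf' hg'
    unfold LSeriesSummable at h
    rw [B12_term c0, e] at h
    exact h.norm
  · have h := LSeries_convolution' hf' hg'
    unfold LSeries at h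
    rw [B12_term c0, B12_term f0, B12_term g0, e] at h
    exact h

/-- the coefficients of the Euler product -/
noncomputable def Fc (s : ℂ) (u v : ℝ) : ℕ → ℂ :=
  (Nat.factoredNumbers (prm u v)).indicator (fun m : ℕ => (m : ℂ) ^ (-(1 / 2 : ℂ) - s))

theorem Fc_zero (s : ℂ) (u v : ℝ) : Fc s u v 0 = 0 :=
  Set.indicator_of_notMem (fun h0 => Nat.ne_zero_of_mem_factoredNumbers h0 rfl) _

theorem Fc_summable {s : ℂ} {L : ℝ} (h : Adm s L) {u v : ℝ} (hv : v ≤ Real.exp L) :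
    Summable fun m => ‖Fc s u v m‖ := by
  obtain ⟨hS, -⟩ := ZZ_hasSum h hv (u := u)
  have h1 : (fun m => ‖Fc s u v m‖) = (Nat.factoredNumbers (prm u v)).indicator
      (fun m : ℕ => ‖(m : ℂ) ^ (-(1 / 2 : ℂ) - s)‖) := by
    funext m
    exact norm_indicator_eq_indicator_norm _ _
  rw [h1, ← summable_subtype_iff_indicator]
  refine hS.congr fun m => ?_
  have hm : 0 < (m : ℕ) := Nat.pos_of_ne_zero (Nat.ne_zero_of_mem_factoredNumbers m.2)
  simp only [Function.comp_apply]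
  rw [Complex.norm_natCast_cpow_of_pos hm]
  congr 1
  simp

theorem Fc_hasSum {s : ℂ} {L : ℝ} (h : Adm s L) {u v : ℝ} (hv : v ≤ Real.exp L) (x : Om) :
    HasSum (fun m : ℕ => Fc s u v m * ch x m) (ZZ s u v x) := by
  obtain ⟨-, hZ⟩ := ZZ_hasSum h hv (u := u)
  have h1 : (fun m : ℕ => Fc s u v m * ch x m) = (Nat.factoredNumbers (prm u v)).indicator
      (fun m : ℕ => (m : ℂ) ^ (-(1 / 2 : ℂ) - s) * ch x m) := by
    funext m
    unfold Fc
    by_cases hm : m ∈ Nat.factoredNumbers (prm u v)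
    · rw [Set.indicator_of_mem hm, Set.indicator_of_mem hm]
    · rw [Set.indicator_of_notMem hm, Set.indicator_of_notMem hm, zero_mul]
  rw [h1, ← hasSum_subtype_iff_indicator]
  exact hZ x

/-- coefficients of `ZZ ^ 2 * DS` -/
noncomputable def cv4 (s : ℂ) (u v X : ℝ) (a : ℕ → ℂ) (n : ℕ) : ℂ :=
  ∑ q ∈ n.divisorsAntidiagonal, Fc s u v q.1 * cv s u v X a q.2

theorem cv_zero (s : ℂ) (u v X : ℝ) (a : ℕ → ℂ) : cv s u v X a 0 = 0 := by
  unfold cv
  rw [if_neg]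
  exact fun h => Nat.ne_zero_of_mem_factoredNumbers h rfl

theorem cv4_zero (s : ℂ) (u v X : ℝ) (a : ℕ → ℂ) : cv4 s u v X a 0 = 0 := by
  unfold cv4
  rw [Nat.divisorsAntidiagonal_zero, Finset.sum_empty]

theorem cv4_out (s : ℂ) (u v X : ℝ) (a : ℕ → ℂ) {n : ℕ} (hn : n ∉ Nat.factoredNumbers (prm u v)) :
    cv4 s u v X a n = 0 := by
  unfold cv4
  refine Finset.sum_eq_zero fun q hq => ?_
  obtain ⟨h3, h4⟩ := Nat.mem_divisorsAntidiagonal.1 hq
  by_cases h1 : q.1 ∈ Nat.factoredNumbers (prm u v)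
  · have h2 : q.2 ∉ Nat.factoredNumbers (prm u v) := by
      intro h2
      have := Nat.mul_mem_factoredNumbers h1 h2
      rw [h3] at this
      exact hn this
    have : cv s u v X a q.2 = 0 := by
      unfold cv
      rw [if_neg h2]
    rw [this, mul_zero]
  · have : Fc s u v q.1 = 0 := Set.indicator_of_notMem h1 _
    rw [this, zero_mul]

theorem ZZ_sq_mul_DS {s : ℂ} {L : ℝ} (h : Adm s L) {u v : ℝ} (hu : 1 ≤ u) (hv : v ≤ Real.exp L) {X : ℝ} (hX : 1 ≤ X)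
    (a : ℕ → ℂ) :
    (Summable fun n => ‖cv4 s u v X a n‖) ∧
    ∀ x : Om, ZZ s u v x ^ 2 * DS (smo u v X) a x = ∑' n, cv4 s u v X a n * ch x n := by
  obtain ⟨h1, h2⟩ := ZZ_mul_DS h hu hv hX a
  refine ⟨(conv_aux (Fc_zero s u v) (cv_zero s u v X a) (Fc_summable h hv) h1).1, fun x => ?_⟩
  have s1 : Summable fun n => ‖Fc s u v n * ch x n‖ := by
    simpa only [norm_mul, norm_ch, mul_one] using Fc_summable h hv
  have s2 : Summable fun n => ‖cv s u v X a n * ch x n‖ := by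
    simpa only [norm_mul, norm_ch, mul_one] using h1
  have h3 := (conv_aux (f := fun n => Fc s u v n * ch x n) (g := fun n => cv s u v X a n * ch x n)
    (by rw [Fc_zero, zero_mul]) (by rw [cv_zero, zero_mul]) s1 s2).2
  rw [(Fc_hasSum h hv x).tsum_eq, ← h2 x] at h3
  rw [pow_two, mul_assoc, ← h3]
  refine tsum_congr fun n => ?_
  unfold cv4
  rw [Finset.sum_mul]
  refine Finset.sum_congr rfl fun q hq => ?_
  obtain ⟨h4, h5⟩ := Nat.mem_divisorsAntidiagonal.1 hq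
  have hq1 : q.1 ≠ 0 := by
    intro h6
    rw [h6, zero_mul] at h4
    exact h5 h4.symm
  have hq2 : q.2 ≠ 0 := by
    intro h6
    rw [h6, mul_zero] at h4
    exact h5 h4.symm
  rw [← h4, ch_mul x hq1 hq2]
  ring

theorem B12_Fc_norm (s : ℂ) (u v : ℝ) (n : ℕ) : ‖Fc s u v n‖ ≤ (n : ℝ) ^ |s.re| * (Real.sqrt n)⁻¹ := by
  unfold Fc
  by_cases hn : n ∈ Nat.factoredNumbers (prm u v)
  · rw [Set.indicator_of_mem hn]
    have hn0 : 0 < n := Nat.pos_of_ne_zero (Nat.ne_zero_of_mem_factoredNumbers hn)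
    have hnR : (1 : ℝ) ≤ n := by exact_mod_cast hn0
    have hnR0 : (0 : ℝ) < n := by linarith
    rw [Complex.norm_natCast_cpow_of_pos hn0]
    have h5 : (-(1 / 2 : ℂ) - s).re = -(1 / 2) + -s.re := by
      simp
      ring
    rw [h5, Real.rpow_add hnR0, Real.rpow_neg hnR0.le (1 / 2), ← Real.sqrt_eq_rpow, mul_comm]
    exact mul_le_mul_of_nonneg_right (Real.rpow_le_rpow_of_exponent_le hnR (neg_le_abs _)) (by positivity)
  · rw [Set.indicator_of_notMem hn, norm_zero]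
    positivity

theorem norm_cv4_le {β : ℝ} (hβ : 0 ≤ β) (s : ℂ) (u v X : ℝ) (n : ℕ) :
    ‖cv4 s u v X (fun n => ((LibZM.tau (β / 2) n : ℝ) : ℂ)) n‖ ≤
      (n : ℝ) ^ |s.re| * (LibZM.tau ((β + 4) / 2) n * (Real.sqrt n)⁻¹) := by
  unfold cv4
  refine (norm_sum_le _ _).trans ?_
  have key : ∀ q ∈ n.divisorsAntidiagonal, ‖Fc s u v q.1 * cv s u v X (fun n => ((LibZM.tau (β / 2) n : ℝ) : ℂ)) q.2‖ ≤
      (n : ℝ) ^ |s.re| * (Real.sqrt n)⁻¹ * LibZM.tau ((β + 2) / 2) q.2 := by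
    intro q hq
    obtain ⟨h3, h4⟩ := Nat.mem_divisorsAntidiagonal.1 hq
    have hn : (n : ℝ) = (q.1 : ℝ) * q.2 := by exact_mod_cast h3.symm
    have ht := LibZM.tau_nonneg (show 0 ≤ (β + 2) / 2 by linarith) q.2
    rw [norm_mul]
    calc ‖Fc s u v q.1‖ * ‖cv s u v X (fun n => ((LibZM.tau (β / 2) n : ℝ) : ℂ)) q.2‖
        ≤ ((q.1 : ℝ) ^ |s.re| * (Real.sqrt q.1)⁻¹) *
          ((q.2 : ℝ) ^ |s.re| * (LibZM.tau ((β + 2) / 2) q.2 * (Real.sqrt q.2)⁻¹)) :=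
          mul_le_mul (B12_Fc_norm s u v q.1) (norm_cv_le hβ s u v X q.2) (norm_nonneg _) (by positivity)
      _ = (n : ℝ) ^ |s.re| * (Real.sqrt n)⁻¹ * LibZM.tau ((β + 2) / 2) q.2 := by
          rw [hn, Real.mul_rpow (Nat.cast_nonneg _) (Nat.cast_nonneg _), Real.sqrt_mul (Nat.cast_nonneg _), mul_inv]
          ring
  refine (Finset.sum_le_sum key).trans (le_of_eq ?_)
  rw [← Finset.mul_sum, B13_sum (β + 2)]
  have : (β + 2 + 2) / 2 = (β + 4) / 2 := by ring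
  rw [this]
  ring

theorem B12_smo {u v X : ℝ} {n d : ℕ} (hn : n ∈ smo u v X) (hd : d ∣ n) : d ∈ smo u v X := by
  unfold smo at hn ⊢
  rw [Finset.mem_filter, Finset.mem_Icc] at hn ⊢
  obtain ⟨⟨hn1, hn2⟩, hn3⟩ := hn
  have hd0 : 1 ≤ d := Nat.pos_of_dvd_of_pos hd hn1
  refine ⟨⟨hd0, (Nat.le_of_dvd hn1 hd).trans hn2⟩, fun p hp => hn3 p ?_⟩
  exact Nat.primeFactors_mono hd (by omega) hp

theorem cv_eq {β : ℝ} {u v X : ℝ} {n : ℕ} (hn : n ∈ smo u v X) :
    cv 0 u v X (fun n => ((LibZM.tau (β / 2) n : ℝ) : ℂ)) n =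
      ((LibZM.tau ((β + 2) / 2) n * (Real.sqrt n)⁻¹ : ℝ) : ℂ) := by
  unfold smo at hn
  rw [Finset.mem_filter, Finset.mem_Icc] at hn
  obtain ⟨⟨hn1, hn2⟩, hn3⟩ := hn
  have hX : (n : ℝ) ≤ X := by
    rcases le_or_gt 0 X with h0 | h0
    · exact (Nat.le_floor_iff h0).1 hn2
    · rw [Nat.floor_of_nonpos h0.le] at hn2
      omega
  have hmem : n ∈ Nat.factoredNumbers (prm u v) := by
    refine Nat.mem_factoredNumbers_of_primeFactors_subset (by omega) fun p hp => ?_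
    rw [mem_prm]
    exact ⟨Nat.prime_of_mem_primeFactors hp, hn3 p hp⟩
  unfold cv
  rw [if_pos hmem]
  have key : ∀ q ∈ n.divisorsAntidiagonal, ((q.1 : ℕ) : ℂ) ^ (-(1 / 2 : ℂ) - 0) *
      (if (q.2 : ℝ) ≤ X then ((LibZM.tau (β / 2) q.2 : ℝ) : ℂ) * (((Real.sqrt q.2)⁻¹ : ℝ) : ℂ) else 0) =
        (((Real.sqrt n)⁻¹ * LibZM.tau (β / 2) q.2 : ℝ) : ℂ) := by
    intro q hq
    obtain ⟨h3, h4⟩ := Nat.mem_divisorsAntidiagonal.1 hq
    have hq1 : 0 < q.1 := by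
      rcases Nat.eq_zero_or_pos q.1 with h5 | h5
      · rw [h5, zero_mul] at h3
        exact absurd h3.symm h4
      · exact h5
    have hq1R : (0 : ℝ) < q.1 := by exact_mod_cast hq1
    have hnn : (q.1 : ℝ) * q.2 = n := by exact_mod_cast h3
    have hq2n : (q.2 : ℝ) ≤ X := by
      refine le_trans ?_ hX
      rw [← hnn]
      have : (1 : ℝ) ≤ q.1 := by exact_mod_cast hq1
      have : (0 : ℝ) ≤ q.2 := Nat.cast_nonneg _
      nlinarith
    have e4 : (Real.sqrt n)⁻¹ = (Real.sqrt q.1)⁻¹ * (Real.sqrt q.2)⁻¹ := by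
      rw [← hnn, Real.sqrt_mul hq1R.le, mul_inv]
    have e5 : ((q.1 : ℕ) : ℂ) ^ (-(1 / 2 : ℂ) - 0) = (((Real.sqrt q.1)⁻¹ : ℝ) : ℂ) := by
      have h6 : (-(1 / 2 : ℂ) - 0) = ((-(1 / 2) : ℝ) : ℂ) := by
        push_cast
        ring
      rw [h6, Real.sqrt_eq_rpow, ← Real.rpow_neg hq1R.le, Complex.ofReal_cpow hq1R.le]
      norm_num
    rw [if_pos hq2n, e5, e4]
    push_cast
    ring
  rw [Finset.sum_congr rfl key, ← Complex.ofReal_sum, ← Finset.mul_sum, B13_sum, mul_comm]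

theorem norm_cv4_eq {β : ℝ} (hβ : 0 ≤ β) {u v X : ℝ} {n : ℕ} (hn : n ∈ smo u v X) :
    ‖cv4 0 u v X (fun n => ((LibZM.tau (β / 2) n : ℝ) : ℂ)) n‖ =
      LibZM.tau ((β + 4) / 2) n * (Real.sqrt n)⁻¹ := by
  have hn' := hn
  unfold smo at hn'
  rw [Finset.mem_filter, Finset.mem_Icc] at hn'
  obtain ⟨⟨hn1, hn2⟩, hn3⟩ := hn'
  unfold cv4
  have key : ∀ q ∈ n.divisorsAntidiagonal, Fc 0 u v q.1 * cv 0 u v X (fun n => ((LibZM.tau (β / 2) n : ℝ) : ℂ)) q.2 =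
        (((Real.sqrt n)⁻¹ * LibZM.tau ((β + 2) / 2) q.2 : ℝ) : ℂ) := by
    intro q hq
    obtain ⟨h3, h4⟩ := Nat.mem_divisorsAntidiagonal.1 hq
    have hq1 : 0 < q.1 := by
      rcases Nat.eq_zero_or_pos q.1 with h5 | h5
      · rw [h5, zero_mul] at h3
        exact absurd h3.symm h4
      · exact h5
    have hq1R : (0 : ℝ) < q.1 := by exact_mod_cast hq1
    have hnn : (q.1 : ℝ) * q.2 = n := by exact_mod_cast h3
    have d1 : q.1 ∣ n := ⟨q.2, h3.symm⟩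
    have d2 : q.2 ∣ n := ⟨q.1, by rw [mul_comm]; exact h3.symm⟩
    have hmem : q.1 ∈ Nat.factoredNumbers (prm u v) := by
      refine Nat.mem_factoredNumbers_of_primeFactors_subset (by omega) fun p hp => ?_
      rw [mem_prm]
      exact ⟨Nat.prime_of_mem_primeFactors hp, hn3 p (Nat.primeFactors_mono d1 (by omega) hp)⟩
    have e4 : (Real.sqrt n)⁻¹ = (Real.sqrt q.1)⁻¹ * (Real.sqrt q.2)⁻¹ := by
      rw [← hnn, Real.sqrt_mul hq1R.le, mul_inv]
    have e5 : Fc 0 u v q.1 = (((Real.sqrt q.1)⁻¹ : ℝ) : ℂ) := by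
      unfold Fc
      rw [Set.indicator_of_mem hmem]
      have h6 : (-(1 / 2 : ℂ) - 0) = ((-(1 / 2) : ℝ) : ℂ) := by
        push_cast
        ring
      rw [h6, Real.sqrt_eq_rpow, ← Real.rpow_neg hq1R.le, Complex.ofReal_cpow hq1R.le]
      norm_num
    rw [e5, cv_eq (B12_smo hn d2), e4]
    push_cast
    ring
  rw [Finset.sum_congr rfl key, ← Complex.ofReal_sum, ← Finset.mul_sum, B13_sum (β + 2), Complex.norm_real,
    Real.norm_of_nonneg, mul_comm]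
  · congr 2
    ring
  · have := LibZM.tau_nonneg (show 0 ≤ (β + 2 + 2) / 2 by linarith) n
    positivity

end Pool.Agent.LibGrF
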