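import Mathlib

import Pool.Agent.LibGrF.B15
import Pool.Agent.LibGrF.B17

set_option autoImplicit false

namespace Pool.Agent.LibGrF

open MeasureTheory Filter Topology Pool.Agent.LibMM99 Pool.Agent.LibGrT
open scoped ComplexConjugate


lemma B18_mono {k C C' u v κ : ℝ} (h : R9T k C u v κ) (hC : C ≤ C') (hκ : 0 ≤ κ) (hv : 1 ≤ v) :
    R9T k C' u v κ := by
  obtain ⟨e, h1, h2, h3, h4, h5⟩ := h
  have hlv : 0 ≤ Real.log v := Real.log_nonneg hv
  refine ⟨e, h1, h2, h3.mono (by gcongr), h4, fun s L hs hvL => (h5 s L hs hvL).trans (by gcongr)⟩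

/-- scale data for every real exponent under all tilted measures -/
theorem hasScale_nu {β : ℝ} (hβ : 0 < β) : ∃ C : ℝ, 1 ≤ C ∧ ∀ u v κ : ℝ, Real.sqrt 2 ≤ u → u ≤ v →
    Real.log v ≤ 2 * Real.log u → 1 ≤ κ → ∃ b e : Om → ℝ, ScaleT4 β C u v κ b e := by
  obtain ⟨N, hN⟩ := exists_nat_ge (β / 2 + 1)
  have hN1 : 1 ≤ N := by
    have : (1 : ℝ) ≤ N := by linarith
    exact_mod_cast this
  have hkN : β / 2 ≤ N := by linarith
  have hNR : (1 : ℝ) ≤ N := by exact_mod_cast hN1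
  obtain ⟨Ca, hCa, hble⟩ := mean_b_le hβ
  obtain ⟨Cb, hCb, hleb⟩ := le_mean_b hβ
  obtain ⟨κ0, C2, hC2, hlarge⟩ := R9T_large hβ hN1 hkN
  obtain ⟨C3, hC3, hsmall⟩ := R9T_small hβ hN1 hkN κ0
  refine ⟨Ca + Cb + C2 + C3 + 2 * (N + 1), by linarith, fun u v κ hu huv hlog hκ => ?_⟩
  obtain ⟨C, hC⟩ : ∃ C : ℝ, C = Ca + Cb + C2 + C3 + 2 * (N + 1) := ⟨_, rfl⟩
  rw [← hC]
  obtain ⟨hlu, hlv, hlv3, hu1, hv1⟩ := R5_logs hu huv
  have hκ0 : 0 ≤ κ := by linarith
  have hE : R9T β C u v κ := by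
    rcases le_total κ0 κ with h | h
    · exact B18_mono (hlarge u v κ hu huv hlog hκ h) (by rw [hC]; linarith) hκ0 hv1.le
    · exact B18_mono (hsmall u v κ hu huv hlog hκ h) (by rw [hC]; linarith) hκ0 hv1.le
  obtain ⟨e, he0, hedep, hepoly, happ, heint⟩ := hE
  have hPS : 1 ≤ PS (β + 4) u v := one_le_PS (by linarith) u v
  have hgpoly := R8g_poly (u := u) hβ.le hkN hv1.le hκ0
  refine ⟨fun x => ‖R8g β u v κ x‖ ^ 2, e, ?_⟩
  constructor
  · exact fun x => by positivity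
  · exact he0
  · have h2 : DependsOn (R8g β u v κ) (coo u v) := dependsOn_DS_smo _ _ _ _
    intro x y hxy
    show ‖R8g β u v κ x‖ ^ 2 = ‖R8g β u v κ y‖ ^ 2
    rw [h2 hxy]
  · exact hedep
  · refine hgpoly.normSq.mono ?_
    have h0 : 0 ≤ κ * Real.log v := by positivity
    have h1 : 2 * ((N : ℝ) + 1) ≤ C := by rw [hC]; linarith
    nlinarith
  · exact hepoly
  · exact happ
  · intro s L hs hvL
    refine (hble s L u v κ hs hu huv hvL hκ).trans ?_
    have hz : 0 < nz4 0 u v := nz_pos (s := 0) (L := L) ⟨hs.1, by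
      have := hs.1
      rw [Complex.zero_re, abs_zero]; positivity⟩ hvL
    apply mul_le_mul_of_nonneg_left _ (by positivity)
    apply Real.exp_le_exp.2
    apply mul_le_mul_of_nonneg_right _ hlv.le
    apply mul_le_mul_of_nonneg_right _ (abs_nonneg s.re)
    rw [hC]; linarith
  · exact heint
  · intro L hL hvL
    refine le_trans ?_ (hleb L u v κ hL hu huv hlog hvL hκ)
    have hz : 0 < nz4 0 u v := nz_pos (s := 0) (L := L) ⟨hL, by rw [Complex.zero_re, abs_zero]; positivity⟩ hvL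
    apply mul_le_mul_of_nonneg_left _ (by positivity)
    have : Cb * Real.exp (-κ / 20) ≤ C * Real.exp (-κ / 20) := by
      apply mul_le_mul_of_nonneg_right _ (Real.exp_pos _).le
      rw [hC]; linarith
    linarith

end Pool.Agent.LibGrF
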