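import Mathlib
import Pool.Agent.LibGrF.A3

/-! # A polynomial majorant with its mean values under all tilted measures with parameters near the imaginary axis -/

set_option autoImplicit false

namespace Pool.Agent.LibGrF

open MeasureTheory Filter Topology Pool.Agent.LibMM99 Pool.Agent.LibGrT
open scoped ComplexConjugate

/-- the polynomial majorant -/
theorem major {β : ℝ} (hβ : 0 < β) (Λ : ℝ) : ∃ C1 Θ : ℝ, 0 < C1 ∧ 0 < Θ ∧
    ∀ w : ℝ → ℂ, IsWeight w Λ → ∀ L : ℝ, 1 ≤ L → ∃ M : Om → ℝ,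
      (∀ x, ‖SS w L x‖ ^ β ≤ M x) ∧ IsPolyR (Θ * L) M ∧ DependsOn M (coo 1 (Real.exp L)) ∧
      ∀ s : ℂ, Adm s L → ∫ x, M x ∂(nu4 s L) ≤ C1 * L ^ gam4 β := by
  obtain ⟨r, hr1, hr2, hr3⟩ := A3_exists_r hβ
  obtain ⟨C0, Ca, K1, hC0, hCa, hK1, H⟩ := A3_machine hβ Λ hr1 hr3
  obtain ⟨K, hK⟩ : ∃ K : ℝ, K = max K1 10 := ⟨_, rfl⟩
  have hKK1 : K1 ≤ K := by rw [hK]; exact le_max_left _ _
  have hK10 : 10 ≤ K := by rw [hK]; exact le_max_right _ _
  have h2k : (1 : ℝ) ≤ 2 ^ β := Real.one_le_rpow (by norm_num) hβ.le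
  have hCa0 : 0 < Ca := by linarith only [hCa]
  have hK0 : 0 < K := by linarith only [hK10]
  refine ⟨2 ^ β * (Ca + Ca + Ca), Ca * K + (2 + β), by positivity, by positivity, ?_⟩
  intro w hw L hL
  have hlog2' : 0 < Real.log 2 := Real.log_pos (by norm_num)
  have hlog2 : Real.log 2 ≤ 1 := by
    have := Real.log_two_lt_d9
    linarith only [this]
  obtain ⟨l0, J, hl1, hl2, hl3⟩ := exists_scales (lam := L) (by linarith only [hlog2, hL])
  have hl0 : 0 < l0 := by linarith only [hl1, hlog2']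
  have hL0 : 0 < L := by linarith only [hL]
  have hcond := kap_cond (K := K) (δ := 1) one_pos le_rfl (by simpa using hK10) (l0 := l0) (L := L)
    (J := J) hL0 (by rw [one_mul]; exact hl3)
  obtain ⟨b, e, Ξ, hbe, F1, F2, F3, G1, G2, G3, G4, -, -, G5, G6⟩ :=
    H w hw l0 K L J hl1 hl2 hKK1 hL hl3.le hcond
  have hSS : ∀ x, SS w L x = Fj l0 K J J x + - RR w l0 K L L J x := by
    intro x
    have h1 := telescoping w l0 K L L J x
    rw [AA_zero hl0 hl2 hL0.le] at h1
    have h2 := AA_top' hw.zero (l0 := l0) (J := J) hL0 x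
    rw [hl3] at h2
    rw [h1, h2]; ring
  have hpt : ∀ x, ‖SS w L x‖ ^ β ≤ 2 ^ β * (BB b J x + UU r l0 K J b e J x + Ξ x) := by
    intro x
    rw [hSS x]
    refine (norm_add_rpow_le hβ _ _).trans ?_
    refine mul_le_mul_of_nonneg_left ?_ (by positivity)
    rw [norm_neg]
    have h1 := (abs_le.1 (F1 x)).2
    have h2 := G1 x
    linarith only [h1, h2]
  have cb : ∀ i < J, Continuous (b i) := fun i _ => (hbe i).b_poly.continuous
  have ce : ∀ i < J, Continuous (e i) := fun i _ => (hbe i).e_poly.continuous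
  have tJ : tj l0 J = Real.exp L := by unfold tj; rw [hl3]
  have dB : DependsOn (BB b J) (coo 1 (tj l0 J)) := dependsOn_BB hl0.le fun i _ => (hbe i).b_dep
  have dU : DependsOn (UU r l0 K J b e J) (coo 1 (tj l0 J)) :=
    dependsOn_UU hl0.le (fun i _ => (hbe i).b_dep) (fun i _ => (hbe i).e_dep)
  rw [tJ] at dB dU
  rw [hl3] at G5 G6
  refine ⟨fun x => 2 ^ β * (BB b J x + UU r l0 K J b e J x + Ξ x), hpt, ?_, ?_, ?_⟩
  · have p1 : IsPolyR (Ca * K * L + 1) (fun x => BB b J x + UU r l0 K J b e J x) :=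
      IsPolyR.add G5 G6
    have p2 : IsPolyR (Ca * K * L + 1) Ξ := G3.mono (by linarith only)
    have p3 : IsPolyR (Ca * K * L + 1 + 1) (fun x => BB b J x + UU r l0 K J b e J x + Ξ x) :=
      IsPolyR.add p1 p2
    have p4 : IsPolyR β (fun _ : Om => (2 : ℝ) ^ β) := by
      refine IsPolyR.const _ hβ.le ?_
      rw [abs_of_pos (by positivity), Real.rpow_def_of_pos (by norm_num), Real.exp_le_exp]
      nlinarith only [hlog2, hβ]
    refine (IsPolyR.mul p4 p3).mono ?_
    nlinarith only [hL, hβ]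
  · intro x y hxy
    change 2 ^ β * (BB b J x + UU r l0 K J b e J x + Ξ x) =
      2 ^ β * (BB b J y + UU r l0 K J b e J y + Ξ y)
    rw [dB hxy, dU hxy, G4 hxy]
  · intro s hs
    have := (isProd_nu hs).prob
    have iB : Integrable (fun x => BB b J x) (nu4 s L) := A0_int (continuous_BB cb)
    have iU : Integrable (fun x => UU r l0 K J b e J x) (nu4 s L) := A0_int (continuous_UU cb ce)
    have iX : Integrable (fun x => Ξ x) (nu4 s L) := A0_int G3.continuous
    have iBU : Integrable (fun x => BB b J x + UU r l0 K J b e J x) (nu4 s L) := iB.add iU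
    have hLp : 0 < L ^ gam4 β := by positivity
    calc ∫ x, 2 ^ β * (BB b J x + UU r l0 K J b e J x + Ξ x) ∂(nu4 s L)
        = 2 ^ β * (∫ x, BB b J x ∂(nu4 s L) + ∫ x, UU r l0 K J b e J x ∂(nu4 s L) +
          ∫ x, Ξ x ∂(nu4 s L)) := by
          rw [integral_const_mul, integral_add iBU iX, integral_add iB iU]
      _ ≤ 2 ^ β * (Ca * L ^ gam4 β + Ca * L ^ gam4 β + Ca * L ^ gam4 β) := by
          refine mul_le_mul_of_nonneg_left ?_ (by positivity)
          have F2' := F2 s hs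
          have F3' := F3 s hs
          have G2' := G2 s hs
          rw [hl3] at F2' F3' G2'
          rw [div_self hL0.ne', Real.one_rpow, mul_one] at G2'
          have h3 : Ca * Real.exp (-K / 20) * L ^ gam4 β ≤ Ca * L ^ gam4 β := by
            refine mul_le_mul_of_nonneg_right ?_ hLp.le
            have h4 : Real.exp (-K / 20) ≤ 1 := Real.exp_le_one_iff.2 (by linarith only [hK10])
            nlinarith only [h4, hCa0]
          linarith only [F2', F3', G2', h3]
      _ = 2 ^ β * (Ca + Ca + Ca) * L ^ gam4 β := by ring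

end Pool.Agent.LibGrF
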